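import Pool.Agent.Lib.MP_729182_ag.Defs
import Pool.Agent.Lib.MP_729182_ag.Final

/-!
MP_729182_ag: a finitely determined germ `(ℂ², 0) → (ℂ³, 0)` with two paired branches of its double
point set which are not topologically equivalent.  The germ is
`Φ(x, y) = (x, y³ - x y, y⁴ - x y² + x² y²)`.
-/

set_option autoImplicit false

namespace Pool.Agent.Results.MP_729182_ag.PairedBranches

open Pool.Agent.Lib.MP_729182_ag

/-- There is a finitely determined holomorphic germ `Φ : (ℂ², 0) → (ℂ³, 0)` and two irreducible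
components `C`, `C'` of its double point set `D`, exchanged by the involution of `D`, such that no
homeomorphism germ of `(ℂ², 0)` maps `C` onto `C'`. -/
theorem result :
    ∃ Φ : C2 → C3, AnalyticAt ℂ Φ 0 ∧ Φ 0 = 0 ∧ FinitelyDetermined Φ ∧
      ∃ D C C' : Set C2, IsDoublePointGerm Φ D ∧ IsComponent D C ∧ IsComponent D C' ∧
        InvolutionMaps Φ C C' ∧ InvolutionMaps Φ C' C ∧ ¬ TopEquiv C C' := by
  obtain ⟨a, ha, ha0, haa⟩ := exists_a
  refine ⟨Phi, contDiff_Phi.contDiffAt.analyticAt, ?_, finitelyDetermined_Phi, DD,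
    {z | fS a z = 0}, {z | fC a z = 0}, isDoublePointGerm_DD, isComponent_S ha ha0 haa,
    isComponent_C ha ha0 haa, involution_SC ha ha0 haa, involution_CS ha ha0 haa,
    not_topEquiv ha ha0 haa⟩
  simp [Phi, Prod.ext_iff]

end Pool.Agent.Results.MP_729182_ag.PairedBranches
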